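import Pool.Agent.H585.KP.Energy
import Pool.Agent.H840.KP.Stm
import Pool.Agent.H671.CNT

set_option autoImplicit false

/-!
`S_ENE` of `Pool.Agent.H840.KP.Stm`.
-/

open MeasureTheory Set Filter
open scoped Topology ComplexConjugate

namespace Pool.Agent.H585.KP

/-- the numerator -/
noncomputable def nu (a b c d : ℝ) (x : ℂ) : ℝ := a + b * x.re + c * x.im + d * ‖x‖ ^ 2

/-- the coefficients of the numerator -/
noncomputable def cf (a b c d : ℝ) (p q : Fin 2) : ℂ :=
  !![(a : ℂ), (b + Complex.I * c) / 2; (b - Complex.I * c) / 2, (d : ℂ)] p q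

theorem nu_eq (a b c d : ℝ) (x : ℂ) : ((nu a b c d x : ℝ) : ℂ) =
    ∑ p : Fin 2, ∑ q : Fin 2, cf a b c d p q * (x ^ (p : ℕ) * conj x ^ (q : ℕ)) := by
  simp only [Fin.sum_univ_two, cf, nu]
  push_cast
  rw [Complex.re_eq_add_conj, Complex.im_eq_sub_conj]
  have h : ((‖x‖ : ℝ) : ℂ) ^ 2 = x * conj x := (Complex.mul_conj' x).symm
  rw [h]
  have hI : (Complex.I : ℂ) ≠ 0 := Complex.I_ne_zero
  simp
  field_simp
  linear_combination ((c : ℂ) * (x - conj x)) * Complex.I_sq

theorem nu_cont (a b c d : ℝ) : Continuous (nu a b c d) := by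
  unfold nu
  fun_prop

/-- the density -/
noncomputable def den (e : Fin 5 → ℂ) (a b c d : ℝ) (x : ℂ) : ℝ := nu a b c d x / ‖∏ k, (x - e k)‖

theorem den_int (e : Fin 5 → ℂ) (he : Function.Injective e) (a b c d : ℝ) :
    Integrable (den e a b c d) := by
  have h1 : ∀ p q : Fin 2, Integrable fun x : ℂ =>
      ((1 / ‖∏ k, (x - e k)‖ : ℝ) : ℂ) * (x ^ (p : ℕ) * conj x ^ (q : ℕ)) := by
    intro p q
    have h := (Pool.Agent.H671.CNT.main e 0 (Complex.exp 1) p q he (by simp) (Complex.exp_ne_zero _)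
      (by omega) (by omega)).1
    have h2 := h.const_mul (1 / 2 : ℂ)
    refine h2.congr (Filter.Eventually.of_forall fun x => ?_)
    simp only [Pi.zero_apply, zpow_zero, Finset.prod_const_one, mul_one]
    rw [Complex.norm_exp]
    simp only [Complex.one_re, Real.log_exp]
    push_cast
    ring
  have h2 : Integrable fun x : ℂ => ((den e a b c d x : ℝ) : ℂ) := by
    have h3 : Integrable fun x : ℂ => ∑ p : Fin 2, ∑ q : Fin 2, cf a b c d p q *
        (((1 / ‖∏ k, (x - e k)‖ : ℝ) : ℂ) * (x ^ (p : ℕ) * conj x ^ (q : ℕ))) := by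
      apply integrable_finsetSum _ fun p _ => ?_
      apply integrable_finsetSum _ fun q _ => ?_
      exact (h1 p q).const_mul _
    refine h3.congr (Filter.Eventually.of_forall fun x => ?_)
    have e0 : ((den e a b c d x : ℝ) : ℂ) = ((nu a b c d x : ℝ) : ℂ) / ((‖∏ k, (x - e k)‖ : ℝ) : ℂ) := by
      simp only [den]
      rw [Complex.ofReal_div]
    show _ = ((den e a b c d x : ℝ) : ℂ)
    rw [e0, nu_eq, Finset.sum_div]
    apply Finset.sum_congr rfl fun p _ => ?_
    rw [Finset.sum_div]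
    apply Finset.sum_congr rfl fun q _ => ?_
    push_cast
    ring
  have h4 := h2.re
  simpa using h4

theorem den_int2 (h : Pool.Agent.H840.KP.S_INT2) (e : Fin 5 → ℂ) (he : Function.Injective e)
    (a b c d : ℝ) :
    Integrable (fun z : ℂ × ℂ => Real.log ‖z.1 - z.2‖ * (den e a b c d z.1 * den e a b c d z.2)) := by
  have h2 : Integrable fun z : ℂ × ℂ =>
      ((Real.log ‖z.1 - z.2‖ * (den e a b c d z.1 * den e a b c d z.2) : ℝ) : ℂ) := by
    have h3 : Integrable fun z : ℂ × ℂ => ∑ p : Fin 2, ∑ q : Fin 2, ∑ p' : Fin 2, ∑ q' : Fin 2,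
        (cf a b c d p q * cf a b c d p' q') *
        (((Real.log ‖z.1 - z.2‖ / (‖∏ k, (z.1 - e k)‖ * ‖∏ k, (z.2 - e k)‖) : ℝ) : ℂ) *
      ((z.1 ^ (p : ℕ) * conj z.1 ^ (q : ℕ)) * (z.2 ^ (p' : ℕ) * conj z.2 ^ (q' : ℕ)))) := by
      apply integrable_finsetSum _ fun p _ => ?_
      apply integrable_finsetSum _ fun q _ => ?_
      apply integrable_finsetSum _ fun p' _ => ?_
      apply integrable_finsetSum _ fun q' _ => ?_
      exact (h e p q p' q' he (by omega) (by omega) (by omega) (by omega)).const_mul _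
    refine h3.congr (Filter.Eventually.of_forall fun z => ?_)
    simp only [den]
    have e1 : ((Real.log ‖z.1 - z.2‖ * (nu a b c d z.1 / ‖∏ k, (z.1 - e k)‖ *
        (nu a b c d z.2 / ‖∏ k, (z.2 - e k)‖)) : ℝ) : ℂ) =
        ((Real.log ‖z.1 - z.2‖ / (‖∏ k, (z.1 - e k)‖ * ‖∏ k, (z.2 - e k)‖) : ℝ) : ℂ) *
          (((nu a b c d z.1 : ℝ) : ℂ) * ((nu a b c d z.2 : ℝ) : ℂ)) := by
      push_cast
      ring
    rw [e1, nu_eq, nu_eq]
    simp only [Fin.sum_univ_two]
    ring
  have h4 := h2.re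
  simpa using h4

theorem exists_pt (e : Fin 5 → ℂ) (a b c d : ℝ) (h : ¬(a = 0 ∧ b = 0 ∧ c = 0 ∧ d = 0)) :
    ∃ x : ℂ, (∀ k, x ≠ e k) ∧ nu a b c d x ≠ 0 := by
  by_contra hno
  push Not at hno
  have hd : Dense ((Set.range e)ᶜ : Set ℂ) := (Set.finite_range e).countable.dense_compl ℝ
  have h0 : nu a b c d = fun _ => 0 := by
    apply Continuous.ext_on hd (nu_cont a b c d) continuous_const
    intro x hx
    apply hno x
    intro k hk
    exact hx ⟨k, hk.symm⟩
  apply h
  have e0 := congrFun h0 0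
  have e1 := congrFun h0 1
  have e2 := congrFun h0 (-1)
  have e3 := congrFun h0 Complex.I
  simp [nu] at e0 e1 e2 e3
  refine ⟨e0, by linarith, ?_, by linarith⟩
  linarith

theorem ene : Pool.Agent.H840.KP.S_ENE := by
  intro h2 e a b c d he hne h0
  obtain ⟨x₀, hx1, hx2⟩ := exists_pt e a b c d hne
  have hprod : ‖∏ k, (x₀ - e k)‖ ≠ 0 := by
    rw [norm_ne_zero_iff, Finset.prod_ne_zero_iff]
    intro k _
    exact sub_ne_zero.2 (hx1 k)
  have hc : ContinuousAt (den e a b c d) x₀ := by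
    unfold den
    refine ContinuousAt.div (g := fun x => ‖∏ k, (x - e k)‖) (nu_cont a b c d).continuousAt ?_ hprod
    fun_prop
  have hx : den e a b c d x₀ ≠ 0 := div_ne_zero hx2 hprod
  have := energy_neg (den_int e he a b c d) (den_int2 h2 e he a b c d) h0 hc hx
  refine lt_of_eq_of_lt ?_ this
  congr 1
  ext z
  simp only [den, nu]
  ring

end Pool.Agent.H585.KP
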