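import Pool.Graph.R_seed8.R227.LP3

set_option autoImplicit false

/-!
The logarithmic energy of a real integrable density of total mass zero which does not vanish at
some point of continuity is strictly negative.
-/

open MeasureTheory Set Filter
open scoped Topology ENNReal NNReal

namespace Pool.Agent.H585.KP

open Pool.Agent.R227.LP (frul gauss_conv)

/-- Gaussian average -/
noncomputable def ga (u : ℂ → ℝ) (t : ℝ) (z : ℂ) : ℝ := ∫ x, Real.exp (-(2 * t) * ‖z - x‖ ^ 2) * u x

theorem exp_le_one {t : ℝ} (ht : 0 < t) (z : ℂ) : Real.exp (-t * ‖z‖ ^ 2) ≤ 1 := by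
  apply Real.exp_le_one_iff.mpr
  nlinarith [sq_nonneg ‖z‖]

theorem ga_int {u : ℂ → ℝ} (hu : Integrable u) {t : ℝ} (ht : 0 < t) (z : ℂ) :
    Integrable fun x => Real.exp (-(2 * t) * ‖z - x‖ ^ 2) * u x := by
  refine hu.norm.mono' ?_ ?_
  · apply AEStronglyMeasurable.mul _ hu.1
    exact (by fun_prop : Measurable (fun x : ℂ => Real.exp (-(2 * t) * ‖z - x‖ ^ 2))).aestronglyMeasurable
  · refine Filter.Eventually.of_forall fun x => ?_
    rw [norm_mul, Real.norm_of_nonneg (Real.exp_pos _).le]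
    have := exp_le_one (t := 2 * t) (by positivity) (z - x)
    nlinarith [norm_nonneg (u x)]

theorem ga_cont {u : ℂ → ℝ} (hu : Integrable u) {t : ℝ} (ht : 0 < t) : Continuous (ga u t) := by
  unfold ga
  apply continuous_of_dominated (bound := fun x => ‖u x‖)
  · exact fun z => (ga_int hu ht z).1
  · intro z
    refine Filter.Eventually.of_forall fun x => ?_
    rw [norm_mul, Real.norm_of_nonneg (Real.exp_pos _).le]
    have := exp_le_one (t := 2 * t) (by positivity) (z - x)
    nlinarith [norm_nonneg (u x)]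
  · exact hu.norm
  · refine Filter.Eventually.of_forall fun x => ?_
    fun_prop

/-- the Gaussian energy is the integral of the squares of the Gaussian averages -/
theorem gauss_eq {u : ℂ → ℝ} (hu : Integrable u) {t : ℝ} (ht : 0 < t) :
    Integrable (fun z => ga u t z ^ 2) ∧
    ∫ z : ℂ, ga u t z ^ 2 = Real.pi / (4 * t) *
      ∫ p : ℂ × ℂ, Real.exp (-t * ‖p.1 - p.2‖ ^ 2) * (u p.1 * u p.2) ∂(volume.prod volume) := by
  set G : ℂ × ℂ → ℂ → ℝ := fun p z =>
    (Real.exp (-(2 * t) * ‖z - p.1‖ ^ 2) * u p.1) * (Real.exp (-(2 * t) * ‖z - p.2‖ ^ 2) * u p.2) with hG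
  have hmu : AEStronglyMeasurable (fun q : (ℂ × ℂ) × ℂ => u q.1.1)
      (((volume : Measure ℂ).prod (volume : Measure ℂ)).prod (volume : Measure ℂ)) :=
    (hu.1.comp_fst).comp_fst
  have hmu2 : AEStronglyMeasurable (fun q : (ℂ × ℂ) × ℂ => u q.1.2)
      (((volume : Measure ℂ).prod (volume : Measure ℂ)).prod (volume : Measure ℂ)) :=
    (hu.1.comp_snd).comp_fst
  have hm : AEStronglyMeasurable (Function.uncurry G)
      (((volume : Measure ℂ).prod (volume : Measure ℂ)).prod (volume : Measure ℂ)) := by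
    have e : Function.uncurry G = fun q : (ℂ × ℂ) × ℂ =>
      (Real.exp (-(2 * t) * ‖q.2 - q.1.1‖ ^ 2) * u q.1.1) * (Real.exp (-(2 * t) * ‖q.2 - q.1.2‖ ^ 2) * u q.1.2) := by
      ext q; rfl
    rw [e]
    apply AEStronglyMeasurable.mul
    · apply AEStronglyMeasurable.mul _ hmu
      exact (by fun_prop : Measurable (fun q : (ℂ × ℂ) × ℂ =>
        Real.exp (-(2 * t) * ‖q.2 - q.1.1‖ ^ 2))).aestronglyMeasurable
    · apply AEStronglyMeasurable.mul _ hmu2
      exact (by fun_prop : Measurable (fun q : (ℂ × ℂ) × ℂ =>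
        Real.exp (-(2 * t) * ‖q.2 - q.1.2‖ ^ 2))).aestronglyMeasurable
  have hGe : ∀ p z, G p z = (u p.1 * u p.2) *
      (Real.exp (-(2 * t) * ‖z - p.1‖ ^ 2) * Real.exp (-(2 * t) * ‖z - p.2‖ ^ 2)) := by
    intro p z; simp only [hG]; ring
  have hGi : ∀ p, ∫ z, G p z = Real.pi / (4 * t) * (Real.exp (-t * ‖p.1 - p.2‖ ^ 2) * (u p.1 * u p.2)) := by
    intro p
    simp_rw [hGe]
    rw [integral_const_mul, (gauss_conv ht p.1 p.2).2]
    ring
  have hI : Integrable (Function.uncurry G)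
      (((volume : Measure ℂ).prod (volume : Measure ℂ)).prod (volume : Measure ℂ)) := by
    rw [integrable_prod_iff hm]
    constructor
    · refine Filter.Eventually.of_forall fun p => ?_
      change Integrable (fun z => G p z)
      simp_rw [hGe]
      exact (gauss_conv ht p.1 p.2).1.const_mul _
    · have hb : Integrable (fun p : ℂ × ℂ => Real.pi / (4 * t) * (‖u p.1‖ * ‖u p.2‖))
        ((volume : Measure ℂ).prod (volume : Measure ℂ)) := (hu.norm.mul_prod hu.norm).const_mul _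
      refine hb.mono' hm.norm.integral_prod_right' ?_
      refine Filter.Eventually.of_forall fun p => ?_
      rw [Real.norm_eq_abs, abs_of_nonneg (integral_nonneg fun y => norm_nonneg _)]
      change ∫ z, ‖G p z‖ ≤ _
      have e : ∀ z, ‖G p z‖ = ‖u p.1 * u p.2‖ *
          (Real.exp (-(2 * t) * ‖z - p.1‖ ^ 2) * Real.exp (-(2 * t) * ‖z - p.2‖ ^ 2)) := by
        intro z
        rw [hGe, norm_mul]
        congr 1
        exact Real.norm_of_nonneg (by positivity)
      simp_rw [e]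
      rw [integral_const_mul, (gauss_conv ht p.1 p.2).2, norm_mul]
      have h1 : Real.exp (-t * ‖p.1 - p.2‖ ^ 2) ≤ 1 := exp_le_one ht _
      calc ‖u p.1‖ * ‖u p.2‖ * (Real.pi / (4 * t) * Real.exp (-t * ‖p.1 - p.2‖ ^ 2))
          ≤ ‖u p.1‖ * ‖u p.2‖ * (Real.pi / (4 * t) * 1) := by gcongr
        _ = _ := by ring
  have hswap := integral_integral_swap hI
  have h1 : ∫ p : ℂ × ℂ, ∫ z, G p z ∂volume ∂(volume.prod volume)
      = Real.pi / (4 * t) * ∫ p : ℂ × ℂ, Real.exp (-t * ‖p.1 - p.2‖ ^ 2) * (u p.1 * u p.2) ∂(volume.prod volume) := by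
    simp_rw [hGi]
    rw [integral_const_mul]
  have h2 : ∀ z, ∫ p : ℂ × ℂ, G p z ∂(volume.prod volume) = ga u t z ^ 2 := by
    intro z
    simp only [hG, ga]
    rw [integral_prod_mul (fun x => Real.exp (-(2 * t) * ‖z - x‖ ^ 2) * u x)
      (fun x => Real.exp (-(2 * t) * ‖z - x‖ ^ 2) * u x), sq]
  rw [h1] at hswap
  simp_rw [h2] at hswap
  refine ⟨?_, hswap.symm⟩
  have h3 := hI.integral_prod_right
  refine h3.congr (Filter.Eventually.of_forall fun z => ?_)
  exact h2 z

/-- approximate identity -/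
theorem ga_tendsto {u : ℂ → ℝ} (hu : Integrable u) {x₀ : ℂ} (hc : ContinuousAt u x₀) :
    Tendsto (fun c : ℝ => (c ^ 2 / Real.pi) * ga u (c ^ 2 / 2) x₀) atTop (𝓝 (u x₀)) := by
  have hφi : ∫ x : ℂ, Real.exp (-1 * ‖x‖ ^ 2) = Real.pi := by
    have h := GaussianFourier.integral_rexp_neg_mul_sq_norm (V := ℂ) (b := 1) one_pos
    rw [h, Complex.finrank_real_complex]
    norm_num
  have h := tendsto_integral_comp_smul_smul_of_integrable' (μ := (volume : Measure ℂ))
    (φ := fun x : ℂ => Real.pi⁻¹ * Real.exp (-1 * ‖x‖ ^ 2)) (x₀ := x₀) (g := u)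
    (fun x => by positivity)
    (by rw [integral_const_mul, hφi, inv_mul_cancel₀ Real.pi_pos.ne']) ?_ hu hc
  · refine h.congr (fun c => ?_)
    rw [Complex.finrank_real_complex]
    unfold ga
    rw [← integral_const_mul]
    congr 1
    ext x
    rw [smul_eq_mul, norm_smul, Real.norm_eq_abs, mul_pow, sq_abs]
    have : -1 * (c ^ 2 * ‖x₀ - x‖ ^ 2) = -(2 * (c ^ 2 / 2)) * ‖x₀ - x‖ ^ 2 := by ring
    rw [this]
    ring
  · rw [Complex.finrank_real_complex]
    have h1 : Tendsto (fun r : ℝ => r ^ 2 * (Real.pi⁻¹ * Real.exp (-1 * r ^ 2))) atTop (𝓝 0) := by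
      have h2 : Tendsto (fun y : ℝ => y ^ 1 * Real.exp (-y)) atTop (𝓝 0) :=
        Real.tendsto_pow_mul_exp_neg_atTop_nhds_zero 1
      have h3 : Tendsto (fun r : ℝ => r ^ 2) atTop atTop := tendsto_pow_atTop two_ne_zero
      have h4 := (h2.comp h3).const_mul Real.pi⁻¹
      rw [mul_zero] at h4
      refine h4.congr (fun r => ?_)
      simp only [Function.comp_apply, pow_one]
      rw [neg_one_mul]
      ring
    exact h1.comp tendsto_norm_cobounded_atTop

theorem energy_neg {u : ℂ → ℝ} (hu : Integrable u)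
    (hp : Integrable (fun p : ℂ × ℂ => Real.log ‖p.1 - p.2‖ * (u p.1 * u p.2)))
    (h0 : ∫ x, u x = 0) {x₀ : ℂ} (hc : ContinuousAt u x₀) (hx : u x₀ ≠ 0) :
    ∫ p : ℂ × ℂ, Real.log ‖p.1 - p.2‖ * (u p.1 * u p.2) < 0 := by
  rw [Measure.volume_eq_prod] at hp ⊢
  set F : ℝ → ℂ × ℂ → ℝ := fun t p =>
    (t⁻¹ * (Real.exp (-(‖p.1 - p.2‖ ^ 2 * t)) - Real.exp (-(1 * t)))) * (u p.1 * u p.2) with hF
  have hne : ∀ᵐ p : ℂ × ℂ ∂((volume : Measure ℂ).prod volume), 0 < ‖p.1 - p.2‖ ^ 2 := by
    rw [Measure.ae_prod_iff_ae_ae]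
    · refine Filter.Eventually.of_forall fun x => ?_
      have : ∀ᵐ y : ℂ, y ≠ x := by rw [ae_iff]; simp
      filter_upwards [this] with y hy
      have : 0 < ‖x - y‖ := norm_pos_iff.mpr (sub_ne_zero.mpr hy.symm)
      positivity
    · exact measurableSet_lt measurable_const (by fun_prop)
  have hmu : AEStronglyMeasurable (fun p : ℂ × ℂ => u p.1 * u p.2) ((volume : Measure ℂ).prod volume) :=
    hu.1.comp_fst.mul hu.1.comp_snd
  have hm : AEStronglyMeasurable (Function.uncurry F)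
      ((volume.restrict (Ioi (0:ℝ))).prod ((volume : Measure ℂ).prod (volume : Measure ℂ))) := by
    have e : Function.uncurry F = fun q : ℝ × (ℂ × ℂ) =>
      (q.1⁻¹ * (Real.exp (-(‖q.2.1 - q.2.2‖ ^ 2 * q.1)) - Real.exp (-(1 * q.1)))) * (u q.2.1 * u q.2.2) := by
      ext q; rfl
    rw [e]
    apply AEStronglyMeasurable.mul
    · exact (by fun_prop : Measurable (fun q : ℝ × (ℂ × ℂ) =>
        q.1⁻¹ * (Real.exp (-(‖q.2.1 - q.2.2‖ ^ 2 * q.1)) - Real.exp (-(1 * q.1))))).aestronglyMeasurable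
    · exact hmu.comp_snd
  have hlog : ∀ p : ℂ × ℂ, Real.log (‖p.1 - p.2‖ ^ 2) = 2 * Real.log ‖p.1 - p.2‖ := by
    intro p
    rw [Real.log_pow]
    push_cast
    ring
  have hI : Integrable (Function.uncurry F)
      ((volume.restrict (Ioi (0:ℝ))).prod ((volume : Measure ℂ).prod (volume : Measure ℂ))) := by
    rw [integrable_prod_iff' hm]
    constructor
    · filter_upwards [hne] with p hp
      exact (frul hp).1.mul_const (u p.1 * u p.2)
    · have h1 : Integrable (fun p : ℂ × ℂ => 2 * ‖Real.log ‖p.1 - p.2‖ * (u p.1 * u p.2)‖)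
        ((volume : Measure ℂ).prod (volume : Measure ℂ)) := hp.norm.const_mul 2
      refine h1.congr ?_
      filter_upwards [hne] with p hp
      have e : ∀ t, ‖Function.uncurry F (t, p)‖ = |t⁻¹ * (Real.exp (-(‖p.1 - p.2‖ ^ 2 * t)) - Real.exp (-(1 * t)))|
        * ‖u p.1 * u p.2‖ := by
        intro t
        change ‖F t p‖ = _
        simp only [hF]
        rw [norm_mul, Real.norm_eq_abs (_ * _)]
      simp_rw [e]
      rw [integral_mul_const, (frul hp).2.2, hlog, abs_mul, abs_two, norm_mul, norm_mul,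
        Real.norm_eq_abs (Real.log _)]
      ring
  have hswap := integral_integral_swap hI
  have h1 : ∀ᵐ p : ℂ × ℂ ∂((volume : Measure ℂ).prod volume),
      ∫ t in Ioi (0:ℝ), F t p = (-2) * (Real.log ‖p.1 - p.2‖ * (u p.1 * u p.2)) := by
    filter_upwards [hne] with p hp
    simp only [hF]
    rw [integral_mul_const, (frul hp).2.1, hlog]
    ring
  rw [integral_congr_ae h1, integral_const_mul] at hswap
  have hpi : Integrable (fun p : ℂ × ℂ => u p.1 * u p.2) ((volume : Measure ℂ).prod volume) :=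
    hu.mul_prod hu
  -- the inner integral
  have hK : ∀ t : ℝ, 0 < t → ∫ p : ℂ × ℂ, F t p ∂(volume.prod volume) =
      t⁻¹ * (4 * t / Real.pi * ∫ z : ℂ, ga u t z ^ 2) := by
    intro t ht
    have e : ∀ p : ℂ × ℂ, F t p = t⁻¹ * (Real.exp (-t * ‖p.1 - p.2‖ ^ 2) * (u p.1 * u p.2))
        - t⁻¹ * Real.exp (-(1 * t)) * (u p.1 * u p.2) := by
      intro p
      simp only [hF]
      have : -(‖p.1 - p.2‖ ^ 2 * t) = -t * ‖p.1 - p.2‖ ^ 2 := by ring
      rw [this]
      ring
    simp_rw [e]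
    have hgi : Integrable (fun p : ℂ × ℂ => Real.exp (-t * ‖p.1 - p.2‖ ^ 2) * (u p.1 * u p.2))
        ((volume : Measure ℂ).prod volume) := by
      refine hpi.norm.mono' ?_ ?_
      · apply AEStronglyMeasurable.mul _ hmu
        exact (by fun_prop : Measurable (fun p : ℂ × ℂ => Real.exp (-t * ‖p.1 - p.2‖ ^ 2))).aestronglyMeasurable
      · refine Filter.Eventually.of_forall fun p => ?_
        have h1 : Real.exp (-t * ‖p.1 - p.2‖ ^ 2) ≤ 1 := exp_le_one ht _
        rw [norm_mul, Real.norm_of_nonneg (Real.exp_pos _).le]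
        nlinarith [norm_nonneg (u p.1 * u p.2)]
    rw [integral_sub (hgi.const_mul _) (hpi.const_mul _), integral_const_mul, integral_const_mul,
      integral_prod_mul u u, h0, (gauss_eq hu ht).2]
    have := Real.pi_pos
    field_simp
    ring
  have hKnn : ∀ t ∈ Ioi (0 : ℝ), 0 ≤ ∫ p : ℂ × ℂ, F t p ∂(volume.prod volume) := by
    intro t ht
    have ht' : 0 < t := ht
    rw [hK t ht']
    have := Real.pi_pos
    have h5 : 0 ≤ ∫ z : ℂ, ga u t z ^ 2 := integral_nonneg fun z => sq_nonneg _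
    positivity
  by_contra hcon
  push Not at hcon
  have hzero : ∫ t in Ioi (0:ℝ), ∫ p : ℂ × ℂ, F t p ∂(volume.prod volume) = 0 := by
    apply le_antisymm _ (setIntegral_nonneg measurableSet_Ioi hKnn)
    rw [hswap]
    linarith
  have hKi : Integrable (fun t => ∫ p : ℂ × ℂ, F t p ∂(volume.prod volume))
      (volume.restrict (Ioi (0:ℝ))) := hI.integral_prod_left
  have hae : ∀ᵐ t ∂(volume.restrict (Ioi (0:ℝ))), ∫ p : ℂ × ℂ, F t p ∂(volume.prod volume) = 0 := by
    have := (setIntegral_eq_zero_iff_of_nonneg_ae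
      ((ae_restrict_iff' measurableSet_Ioi).2 (Filter.Eventually.of_forall hKnn)) hKi).1 hzero
    exact this
  have hga : ∀ᵐ t ∂(volume.restrict (Ioi (0:ℝ))), ga u t x₀ = 0 := by
    filter_upwards [hae, ae_restrict_mem measurableSet_Ioi] with t ht ht0
    have ht0' : 0 < t := ht0
    rw [hK t ht0'] at ht
    have h5 : ∫ z : ℂ, ga u t z ^ 2 = 0 := by
      have := Real.pi_pos
      have h6 : t⁻¹ * (4 * t / Real.pi) ≠ 0 := by positivity
      rw [← mul_assoc] at ht
      exact (mul_eq_zero.1 ht).resolve_left h6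
    have h6 := (integral_eq_zero_iff_of_nonneg (fun z => sq_nonneg _) (gauss_eq hu ht0').1).1 h5
    have h7 : (fun z => ga u t z ^ 2) = fun _ => (0 : ℝ) :=
      Continuous.ae_eq_iff_eq (μ := (volume : Measure ℂ)) ((ga_cont hu ht0').pow 2)
        continuous_const |>.1 h6
    have h8 := congrFun h7 x₀
    simpa using h8
  have hfreq : ∃ᶠ t in atTop, ga u t x₀ = 0 := by
    rw [Filter.frequently_atTop]
    intro a
    by_contra hno
    push Not at hno
    rw [ae_restrict_iff' measurableSet_Ioi, ae_iff] at hga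
    have hsub : Ioi (max a 0) ⊆ {t : ℝ | ¬(t ∈ Ioi (0 : ℝ) → ga u t x₀ = 0)} := by
      intro t ht
      have h1 : max a 0 < t := ht
      simp only [mem_ofPred_eq, Classical.not_imp]
      exact ⟨lt_of_le_of_lt (le_max_right _ _) h1, hno t ((le_max_left _ _).trans h1.le)⟩
    have := measure_mono_null hsub hga
    simp at this
  have hlim := ga_tendsto hu hc
  have hfreq2 : ∃ᶠ c : ℝ in atTop, (c ^ 2 / Real.pi) * ga u (c ^ 2 / 2) x₀ = 0 := by
    rw [Filter.frequently_atTop] at hfreq ⊢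
    intro a
    obtain ⟨t, ht, ht2⟩ := hfreq (a ^ 2 / 2)
    refine ⟨max a (Real.sqrt (2 * t)), le_max_left _ _, ?_⟩
    have h1 : 0 ≤ t := le_trans (by positivity) ht
    have h2 : a ≤ Real.sqrt (2 * t) := Real.le_sqrt_of_sq_le (by linarith)
    rw [max_eq_right h2, Real.sq_sqrt (by positivity)]
    rw [show 2 * t / 2 = t by ring, ht2, mul_zero]
  apply hx
  exact tendsto_nhds_unique_of_frequently_eq hlim (tendsto_const_nhds (x := (0 : ℝ))) hfreq2

end Pool.Agent.H585.KP
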