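import Pool.Agent.H585.KP.SgxReal
import Pool.Agent.H840.KP.Stm

set_option autoImplicit false

/-!
`S_SGX` of `Pool.Agent.H840.KP.Stm`: the integrand is averaged over the symmetries of the square.
-/

open MeasureTheory Filter Topology
open scoped ComplexConjugate

namespace Pool.Agent.H585.KP.Sgx

open Pool.Agent.H840.AS (e0)

/-- `|∏ (x - e k)|` -/
noncomputable def D (x : ℂ) : ℝ := ‖∏ k, (x - e0 k)‖

theorem D_nonneg (x : ℂ) : 0 ≤ D x := norm_nonneg _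

theorem norm_sq (z : ℂ) : ‖z‖ ^ 2 = z.re ^ 2 + z.im ^ 2 := by
  rw [Complex.sq_norm, Complex.normSq_apply]; ring

theorem D_sq (x : ℂ) : D x ^ 2 = (x.re ^ 2 + x.im ^ 2) *
    ((x.re ^ 2 + x.im ^ 2) ^ 2 + 1 - 2 * (x.re ^ 2 - x.im ^ 2)) *
    ((x.re ^ 2 + x.im ^ 2) ^ 2 + 16 - 8 * (x.re ^ 2 - x.im ^ 2)) := by
  unfold D
  rw [norm_prod, ← Finset.prod_pow]
  simp only [norm_sq, Fin.prod_univ_five, e0]
  simp
  ring

/-- exchange of the real and the imaginary part -/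
noncomputable def sig : ℂ ≃ₗᵢ[ℝ] ℂ where
  toFun x := ⟨x.im, x.re⟩
  invFun x := ⟨x.im, x.re⟩
  map_add' x y := by apply Complex.ext <;> simp
  map_smul' c x := by apply Complex.ext <;> simp
  left_inv x := rfl
  right_inv x := rfl
  norm_map' x := by
    show ‖(⟨x.im, x.re⟩ : ℂ)‖ = ‖x‖
    rw [Complex.norm_def, Complex.norm_def, Complex.normSq_apply, Complex.normSq_apply, add_comm]

theorem sig_re (x : ℂ) : (sig x).re = x.im := rfl

theorem sig_im (x : ℂ) : (sig x).im = x.re := rfl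

theorem inv_int (g h : ℂ ≃ₗᵢ[ℝ] ℂ) {f : ℂ × ℂ → ℝ} (hf : Integrable f) :
    Integrable (fun p : ℂ × ℂ => f (g p.1, h p.2)) ∧
      ∫ p : ℂ × ℂ, f (g p.1, h p.2) = ∫ p, f p := by
  have hg := g.measurePreserving
  have hh := h.measurePreserving
  have hT : MeasurePreserving (Prod.map g h) (volume : Measure (ℂ × ℂ)) volume := by
    rw [Measure.volume_eq_prod]
    exact hg.prod hh
  have hE : MeasurableEmbedding (Prod.map g h) :=
    (g.toHomeomorph.toMeasurableEquiv.prodCongr h.toHomeomorph.toMeasurableEquiv).measurableEmbedding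
  exact ⟨(hT.integrable_comp_emb hE).2 hf, hT.integral_comp hE f⟩

/-- the integrand -/
noncomputable def Phi (p : ℂ × ℂ) : ℝ :=
  Real.log ‖p.1 - p.2‖ / (D p.1 * D p.2) * (p.1.re * p.2.re - p.1.im * p.2.im)

/-- average over the signs -/
noncomputable def F (p : ℂ × ℂ) : ℝ :=
  Phi (p.1, p.2) + Phi (p.1, -p.2) + Phi (p.1, conj p.2) + Phi (p.1, -conj p.2)

theorem log_norm (z : ℂ) : Real.log ‖z‖ = Real.log (z.re ^ 2 + z.im ^ 2) / 2 := by
  rw [← norm_sq, Real.log_pow]; push_cast; ring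

theorem D_neg (x : ℂ) : D (-x) = D x := by
  rw [← Real.sqrt_sq (D_nonneg (-x)), ← Real.sqrt_sq (D_nonneg x), D_sq, D_sq]
  simp

theorem D_conj (x : ℂ) : D (conj x) = D x := by
  rw [← Real.sqrt_sq (D_nonneg (conj x)), ← Real.sqrt_sq (D_nonneg x), D_sq, D_sq]
  simp

theorem F_eq (s t : ℂ) : F (s, t) = -(1 / 2) * (1 / D s) * (1 / D t) *
    A (s.re ^ 2 + s.im ^ 2 + t.re ^ 2 + t.im ^ 2) (s.re * t.re) (s.im * t.im) := by
  unfold F Phi A
  simp only [D_neg, D_conj, log_norm]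
  simp only [Complex.sub_re, Complex.sub_im, Complex.neg_re, Complex.neg_im, Complex.conj_re,
    Complex.conj_im]
  have e1 : (s.re - t.re) ^ 2 + (s.im - t.im) ^ 2 =
    s.re ^ 2 + s.im ^ 2 + t.re ^ 2 + t.im ^ 2 - 2 * (s.re * t.re + s.im * t.im) := by ring
  have e2 : (s.re - -t.re) ^ 2 + (s.im - -t.im) ^ 2 =
    s.re ^ 2 + s.im ^ 2 + t.re ^ 2 + t.im ^ 2 + 2 * (s.re * t.re + s.im * t.im) := by ring
  have e3 : (s.re - t.re) ^ 2 + (s.im - -t.im) ^ 2 =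
    s.re ^ 2 + s.im ^ 2 + t.re ^ 2 + t.im ^ 2 - 2 * (s.re * t.re - s.im * t.im) := by ring
  have e4 : (s.re - -t.re) ^ 2 + (s.im - - -t.im) ^ 2 =
    s.re ^ 2 + s.im ^ 2 + t.re ^ 2 + t.im ^ 2 + 2 * (s.re * t.re - s.im * t.im) := by ring
  rw [e1, e2, e3, e4]
  simp only [div_eq_mul_inv, mul_inv]
  ring

/-- average over all symmetries -/
noncomputable def Psi (p : ℂ × ℂ) : ℝ :=
  F (p.1, p.2) + F (sig p.1, sig p.2) + F (p.1, sig p.2) + F (sig p.1, p.2)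

theorem Psi_eq (s t : ℂ) : Psi (s, t) = -(1 / 2) *
    ((1 / D s * (1 / D t) - 1 / D (sig s) * (1 / D (sig t))) *
      A (s.re ^ 2 + s.im ^ 2 + t.re ^ 2 + t.im ^ 2) (s.re * t.re) (s.im * t.im) +
    (1 / D s * (1 / D (sig t)) - 1 / D (sig s) * (1 / D t)) *
      A (s.re ^ 2 + s.im ^ 2 + t.re ^ 2 + t.im ^ 2) (s.re * t.im) (s.im * t.re)) := by
  unfold Psi
  simp only [F_eq, sig_re, sig_im]
  have e1 : s.im ^ 2 + s.re ^ 2 + t.im ^ 2 + t.re ^ 2 =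
    s.re ^ 2 + s.im ^ 2 + t.re ^ 2 + t.im ^ 2 := by ring
  have e2 : s.re ^ 2 + s.im ^ 2 + t.im ^ 2 + t.re ^ 2 =
    s.re ^ 2 + s.im ^ 2 + t.re ^ 2 + t.im ^ 2 := by ring
  have e3 : s.im ^ 2 + s.re ^ 2 + t.re ^ 2 + t.im ^ 2 =
    s.re ^ 2 + s.im ^ 2 + t.re ^ 2 + t.im ^ 2 := by ring
  rw [e1, e2, e3, A_swap _ (s.re * t.re) (s.im * t.im), A_swap _ (s.re * t.im) (s.im * t.re)]
  ring

theorem e0_inj : Function.Injective e0 := by
  intro i j h
  fin_cases i <;> fin_cases j <;> simp [e0] at h ⊢ <;> (exfalso; revert h; norm_num [Complex.ext_iff])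

theorem Phi_int (h : Pool.Agent.H840.KP.S_INT2) : Integrable Phi := by
  have h1 := (h e0 1 0 1 0 e0_inj le_rfl (by norm_num) le_rfl (by norm_num)).re
  refine h1.congr (Filter.Eventually.of_forall fun z => ?_)
  show (((Real.log ‖z.1 - z.2‖ / (‖∏ k, (z.1 - e0 k)‖ * ‖∏ k, (z.2 - e0 k)‖) : ℝ) : ℂ) *
    ((z.1 ^ 1 * conj z.1 ^ 0) * (z.2 ^ 1 * conj z.2 ^ 0))).re = Phi z
  rw [Complex.re_ofReal_mul]
  simp only [pow_one, pow_zero, mul_one, Complex.mul_re]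
  rfl

theorem F_int (h : Pool.Agent.H840.KP.S_INT2) : Integrable F ∧ ∫ p, F p = 4 * ∫ p, Phi p := by
  have h0 := Phi_int h
  have h1 := inv_int (LinearIsometryEquiv.refl ℝ ℂ) (LinearIsometryEquiv.neg ℝ) h0
  have h2 := inv_int (LinearIsometryEquiv.refl ℝ ℂ) Complex.conjLIE h0
  have h3 := inv_int (LinearIsometryEquiv.refl ℝ ℂ)
    (Complex.conjLIE.trans (LinearIsometryEquiv.neg ℝ)) h0
  simp only [LinearIsometryEquiv.coe_refl, id, LinearIsometryEquiv.coe_neg, Complex.conjLIE_apply,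
    LinearIsometryEquiv.trans_apply] at h1 h2 h3
  have h0' : Integrable fun p : ℂ × ℂ => Phi (p.1, p.2) := h0
  have s1 : Integrable fun p : ℂ × ℂ => Phi (p.1, p.2) + Phi (p.1, -p.2) := h0'.add h1.1
  have s2 : Integrable fun p : ℂ × ℂ => Phi (p.1, p.2) + Phi (p.1, -p.2) + Phi (p.1, conj p.2) :=
    s1.add h2.1
  unfold F
  refine ⟨s2.add h3.1, ?_⟩
  rw [integral_add s2 h3.1, integral_add s1 h2.1, integral_add h0' h1.1, h1.2, h2.2, h3.2]
  show (∫ p, Phi p) + _ + _ + _ = _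
  ring

theorem Psi_int (h : Pool.Agent.H840.KP.S_INT2) : Integrable Psi ∧ ∫ p, Psi p = 4 * ∫ p, F p := by
  have h0 := (F_int h).1
  have h1 := inv_int sig sig h0
  have h2 := inv_int (LinearIsometryEquiv.refl ℝ ℂ) sig h0
  have h3 := inv_int sig (LinearIsometryEquiv.refl ℝ ℂ) h0
  simp only [LinearIsometryEquiv.coe_refl, id] at h1 h2 h3
  have h0' : Integrable fun p : ℂ × ℂ => F (p.1, p.2) := h0
  have s1 : Integrable fun p : ℂ × ℂ => F (p.1, p.2) + F (sig p.1, sig p.2) := h0'.add h1.1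
  have s2 : Integrable fun p : ℂ × ℂ => F (p.1, p.2) + F (sig p.1, sig p.2) + F (p.1, sig p.2) :=
    s1.add h2.1
  unfold Psi
  refine ⟨s2.add h3.1, ?_⟩
  rw [integral_add s2 h3.1, integral_add s1 h2.1, integral_add h0' h1.1, h1.2, h2.2, h3.2]
  show (∫ p, F p) + _ + _ + _ = _
  ring

/-- the comparison of the weights -/
theorem weight {s : ℂ} (h1 : D s ≠ 0) (h2 : D (sig s) ≠ 0) (h3 : s.re ^ 2 - s.im ^ 2 ≠ 0) :
    ∃ ρ : ℝ, 0 < ρ ∧ 1 / D s - 1 / D (sig s) = ρ * (s.re ^ 2 - s.im ^ 2) := by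
  have hD : 0 < D s := lt_of_le_of_ne (D_nonneg _) h1.symm
  have hD' : 0 < D (sig s) := lt_of_le_of_ne (D_nonneg _) h2.symm
  have e1 := D_sq s
  have e2 := D_sq (sig s)
  rw [sig_re, sig_im] at e2
  have hN : 0 < s.re ^ 2 + s.im ^ 2 := by
    by_contra hneg
    apply h3
    have h4 := sq_nonneg s.re
    have h5 := sq_nonneg s.im
    nlinarith
  refine ⟨(4 * (s.re ^ 2 + s.im ^ 2) * (4 * ((s.re ^ 2 + s.im ^ 2) ^ 2 + 1) +
    ((s.re ^ 2 + s.im ^ 2) ^ 2 + 16))) / (D s * D (sig s) * (D s + D (sig s))), by positivity, ?_⟩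
  have e3 : (D (sig s) - D s) * (D s + D (sig s)) = (4 * (s.re ^ 2 + s.im ^ 2) *
    (4 * ((s.re ^ 2 + s.im ^ 2) ^ 2 + 1) + ((s.re ^ 2 + s.im ^ 2) ^ 2 + 16))) *
      (s.re ^ 2 - s.im ^ 2) := by
    have e4 : (D (sig s) - D s) * (D s + D (sig s)) = D (sig s) ^ 2 - D s ^ 2 := by ring
    rw [e4, e1, e2]
    ring
  rw [div_mul_eq_mul_div, ← e3]
  field_simp

theorem ae_ne (g : ℂ ≃ₗᵢ[ℝ] ℂ) : ∀ᵐ p : ℂ × ℂ, 0 < ‖p.1 - g p.2‖ ^ 2 := by
  rw [Measure.volume_eq_prod, Measure.ae_prod_iff_ae_ae]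
  · refine Filter.Eventually.of_forall fun x => ?_
    have : ∀ᵐ y : ℂ, y ≠ g.symm x := by rw [ae_iff]; simp
    filter_upwards [this] with y hy
    have : 0 < ‖x - g y‖ := by
      apply norm_pos_iff.mpr
      rw [sub_ne_zero]
      intro h
      exact hy (by rw [h, g.symm_apply_apply])
    positivity
  · exact measurableSet_lt measurable_const (by fun_prop)

theorem ae_good : ∀ᵐ s : ℂ, D s ≠ 0 ∧ D (sig s) ≠ 0 ∧ s.re ^ 2 - s.im ^ 2 ≠ 0 := by
  have h1 : ∀ᵐ s : ℂ, D s ≠ 0 := by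
    have : ∀ᵐ s : ℂ, ∀ k, s ≠ e0 k := by
      rw [ae_all_iff]; intro k; rw [ae_iff]; simp
    filter_upwards [this] with s hs
    unfold D
    rw [norm_ne_zero_iff, Finset.prod_ne_zero_iff]
    exact fun k _ => sub_ne_zero.2 (hs k)
  have h2 : ∀ᵐ s : ℂ, D (sig s) ≠ 0 := sig.measurePreserving.quasiMeasurePreserving.ae h1
  have h3 : ∀ᵐ s : ℂ, s.re - s.im ≠ 0 := by
    have := Measure.addHaar_submodule (volume : Measure ℂ)
      (LinearMap.ker (Complex.reLm - Complex.imLm)) (by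
        intro h
        have h4 : (1 : ℂ) ∈ LinearMap.ker (Complex.reLm - Complex.imLm) := by rw [h]; trivial
        simp at h4)
    have e : {s : ℂ | ¬ (s.re - s.im ≠ 0)} =
        ((LinearMap.ker (Complex.reLm - Complex.imLm) : Submodule ℝ ℂ) : Set ℂ) := by
      ext s; simp
    rw [ae_iff, e]
    exact this
  have h4 : ∀ᵐ s : ℂ, s.re + s.im ≠ 0 := by
    have := Measure.addHaar_submodule (volume : Measure ℂ)
      (LinearMap.ker (Complex.reLm + Complex.imLm)) (by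
        intro h
        have h4 : (1 : ℂ) ∈ LinearMap.ker (Complex.reLm + Complex.imLm) := by rw [h]; trivial
        simp at h4)
    have e : {s : ℂ | ¬ (s.re + s.im ≠ 0)} =
        ((LinearMap.ker (Complex.reLm + Complex.imLm) : Submodule ℝ ℂ) : Set ℂ) := by
      ext s; simp
    rw [ae_iff, e]
    exact this
  filter_upwards [h1, h2, h3, h4] with s a b c d
  refine ⟨a, b, ?_⟩
  rw [show s.re ^ 2 - s.im ^ 2 = (s.re - s.im) * (s.re + s.im) by ring]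
  exact mul_ne_zero c d

theorem Psi_neg : ∀ᵐ p : ℂ × ℂ, Psi p < 0 := by
  have q1 : ∀ᵐ p : ℂ × ℂ, D p.1 ≠ 0 ∧ D (sig p.1) ≠ 0 ∧ p.1.re ^ 2 - p.1.im ^ 2 ≠ 0 :=
    Measure.quasiMeasurePreserving_fst.ae ae_good
  have q2 : ∀ᵐ p : ℂ × ℂ, D p.2 ≠ 0 ∧ D (sig p.2) ≠ 0 ∧ p.2.re ^ 2 - p.2.im ^ 2 ≠ 0 :=
    Measure.quasiMeasurePreserving_snd.ae ae_good
  have c1 := ae_ne (LinearIsometryEquiv.refl ℝ ℂ)
  have c2 := ae_ne (LinearIsometryEquiv.neg ℝ)
  have c3 := ae_ne Complex.conjLIE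
  have c4 := ae_ne (Complex.conjLIE.trans (LinearIsometryEquiv.neg ℝ))
  have c5 := ae_ne sig
  have c6 := ae_ne (sig.trans (LinearIsometryEquiv.neg ℝ))
  have c7 := ae_ne (sig.trans Complex.conjLIE)
  have c8 := ae_ne (sig.trans (Complex.conjLIE.trans (LinearIsometryEquiv.neg ℝ)))
  filter_upwards [q1, q2, c1, c2, c3, c4, c5, c6, c7, c8] with ⟨s, t⟩ q1 q2 c1 c2 c3 c4 c5 c6 c7 c8
  obtain ⟨a1, a2, a3⟩ := q1
  obtain ⟨b1, b2, b3⟩ := q2
  obtain ⟨ρ, hρ, hρe⟩ := weight a1 a2 a3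
  obtain ⟨ρ', hρ', hρe'⟩ := weight b1 b2 b3
  have pos : ∀ z : ℂ, D z ≠ 0 → 0 < 1 / D z := fun z hz =>
    one_div_pos.2 (lt_of_le_of_ne (D_nonneg _) hz.symm)
  simp only [norm_sq, LinearIsometryEquiv.coe_refl, id, LinearIsometryEquiv.coe_neg,
    Complex.conjLIE_apply, LinearIsometryEquiv.trans_apply, Complex.sub_re, Complex.sub_im,
    Complex.neg_re, Complex.neg_im, Complex.conj_re, Complex.conj_im, sig_re, sig_im] at c1 c2 c3 c4 c5 c6 c7 c8
  rw [Psi_eq]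
  have hS : 0 < s.re ^ 2 + s.im ^ 2 + t.re ^ 2 + t.im ^ 2 := by nlinarith
  have := main hS (pos s a1) (pos (sig s) a2) (pos t b1) (pos (sig t) b2) hρ hρ' hρe hρe' a3 b3
    (abs_lt.2 ⟨by nlinarith, by nlinarith⟩) (abs_lt.2 ⟨by nlinarith, by nlinarith⟩)
    (abs_lt.2 ⟨by nlinarith, by nlinarith⟩) (abs_lt.2 ⟨by nlinarith, by nlinarith⟩)
  linarith

theorem sgx : Pool.Agent.H840.KP.S_SGX := by
  intro h
  have hP := Psi_int h
  have hF := F_int h
  have hneg : ∫ p, Psi p < 0 := by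
    have h1 : 0 ≤ᵐ[volume] fun p => -Psi p := by
      filter_upwards [Psi_neg] with p hp
      show 0 ≤ -Psi p
      linarith
    have h2 : 0 ≤ ∫ p, -Psi p := integral_nonneg_of_ae h1
    rw [integral_neg] at h2
    rcases (le_iff_lt_or_eq.1 (by linarith : ∫ p, Psi p ≤ 0)) with h3 | h3
    · exact h3
    · exfalso
      have h4 : ∫ p, -Psi p = 0 := by rw [integral_neg, h3, neg_zero]
      rw [integral_eq_zero_iff_of_nonneg_ae h1 hP.1.neg] at h4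
      have h5 : ∀ᵐ p : ℂ × ℂ, False := by
        filter_upwards [h4, Psi_neg] with p hp1 hp2
        have : -Psi p = 0 := hp1
        linarith
      rw [ae_iff] at h5
      simp at h5
      exact NeZero.ne (volume : Measure (ℂ × ℂ)) h5
  have h6 : ∫ p, Phi p < 0 := by linarith [hP.2, hF.2]
  refine lt_of_eq_of_lt ?_ h6
  rfl

end Pool.Agent.H585.KP.Sgx
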