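import Mathlib

set_option autoImplicit false

/-!
The elementary inequality in the proof of `S_SGX`.
-/

open Real

namespace Pool.Agent.H585.KP.Sgx

/-- `(P-Q) log((S+2(P+Q))/(S-2(P+Q))) + (P+Q) log((S+2(P-Q))/(S-2(P-Q)))` -/
noncomputable def A (S P Q : ℝ) : ℝ :=
  (P - Q) * (log (S + 2 * (P + Q)) - log (S - 2 * (P + Q))) +
    (P + Q) * (log (S + 2 * (P - Q)) - log (S - 2 * (P - Q)))

theorem A_swap (S P Q : ℝ) : A S Q P = -A S P Q := by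
  unfold A
  rw [add_comm Q P, show S + 2 * (Q - P) = S - 2 * (P - Q) by ring,
    show S - 2 * (Q - P) = S + 2 * (P - Q) by ring]
  ring

theorem lam_hasSum {S z : ℝ} (hS : 0 < S) (hz : |2 * z| < S) :
    HasSum (fun k : ℕ => (2 / (2 * k + 1) * (2 / S) ^ (2 * k + 1)) * z ^ (2 * k + 1))
      (log (S + 2 * z) - log (S - 2 * z)) := by
  have h1 : |2 * z / S| < 1 := by
    rw [abs_div, abs_of_pos hS, div_lt_one hS]; exact hz
  have h2 := hasSum_log_sub_log_of_abs_lt_one h1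
  have h3 := abs_lt.1 h1
  have h4 : log (S + 2 * z) = log S + log (1 + 2 * z / S) := by
    rw [← log_mul hS.ne' (by linarith)]; congr 1; field_simp
  have h5 : log (S - 2 * z) = log S + log (1 - 2 * z / S) := by
    rw [← log_mul hS.ne' (by linarith)]; congr 1; field_simp
  rw [h4, h5, add_sub_add_left_eq_sub]
  convert! h2 using 2 with k
  rw [show 2 * z / S = (2 / S) * z by ring, mul_pow]
  ring

theorem A_hasSum {S P Q : ℝ} (hS : 0 < S) (h1 : |2 * (P + Q)| < S) (h2 : |2 * (P - Q)| < S) :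
    HasSum (fun k : ℕ => (2 / (2 * k + 1) * (2 / S) ^ (2 * k + 1)) *
      ((P ^ 2 - Q ^ 2) * (((P + Q) ^ 2) ^ k + ((P - Q) ^ 2) ^ k))) (A S P Q) := by
  have h3 := ((lam_hasSum hS h1).mul_left (P - Q)).add ((lam_hasSum hS h2).mul_left (P + Q))
  unfold A
  convert! h3 using 2 with k
  rw [← pow_mul, ← pow_mul, pow_succ (P + Q), pow_succ (P - Q)]
  ring

/-- the termwise identity -/
theorem term_eq {x y a b u v u' v' ρ ρ' : ℝ}
    (h1 : u - v = ρ * (x ^ 2 - y ^ 2)) (h2 : u' - v' = ρ' * (a ^ 2 - b ^ 2)) (W W' : ℝ) :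
    (u * u' - v * v') * ((x * a) ^ 2 - (y * b) ^ 2) * W +
      (u * v' - v * u') * ((x * b) ^ 2 - (y * a) ^ 2) * W' =
      (1 / 4) * (ρ * (x ^ 2 - y ^ 2) ^ 2 * ((u' + v') * (a ^ 2 + b ^ 2)) +
        ρ' * (a ^ 2 - b ^ 2) ^ 2 * ((u + v) * (x ^ 2 + y ^ 2))) * (W + W') +
      (1 / 4) * (ρ * ((u' + v') * (x ^ 2 + y ^ 2)) + ρ' * ((u + v) * (a ^ 2 + b ^ 2))) *
        (((x ^ 2 - y ^ 2) * (a ^ 2 - b ^ 2)) * (W - W')) := by
  have hu : u = v + ρ * (x ^ 2 - y ^ 2) := by linarith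
  have hu' : u' = v' + ρ' * (a ^ 2 - b ^ 2) := by linarith
  subst hu hu'
  ring

theorem term_sgn (x y a b : ℝ) (k : ℕ) :
    0 ≤ ((x ^ 2 - y ^ 2) * (a ^ 2 - b ^ 2)) *
      ((((x * a + y * b) ^ 2) ^ k + ((x * a - y * b) ^ 2) ^ k) -
        (((x * b + y * a) ^ 2) ^ k + ((x * b - y * a) ^ 2) ^ k)) := by
  rcases le_total 0 ((x ^ 2 - y ^ 2) * (a ^ 2 - b ^ 2)) with h | h
  · apply mul_nonneg h
    rw [sub_nonneg]
    apply add_le_add
    · apply pow_le_pow_left₀ (by positivity)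
      nlinarith
    · apply pow_le_pow_left₀ (by positivity)
      nlinarith
  · apply mul_nonneg_of_nonpos_of_nonpos h
    rw [sub_nonpos]
    apply add_le_add
    · apply pow_le_pow_left₀ (by positivity)
      nlinarith
    · apply pow_le_pow_left₀ (by positivity)
      nlinarith

theorem main {S x y a b u v u' v' ρ ρ' : ℝ} (hS : 0 < S) (hu : 0 < u) (hv : 0 < v) (hu' : 0 < u')
    (hv' : 0 < v') (hρ : 0 < ρ) (hρ' : 0 < ρ')
    (h1 : u - v = ρ * (x ^ 2 - y ^ 2)) (h2 : u' - v' = ρ' * (a ^ 2 - b ^ 2))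
    (hx : x ^ 2 - y ^ 2 ≠ 0) (ha : a ^ 2 - b ^ 2 ≠ 0)
    (g1 : |2 * (x * a + y * b)| < S) (g2 : |2 * (x * a - y * b)| < S)
    (g3 : |2 * (x * b + y * a)| < S) (g4 : |2 * (x * b - y * a)| < S) :
    0 < (u * u' - v * v') * A S (x * a) (y * b) + (u * v' - v * u') * A S (x * b) (y * a) := by
  have hs := ((A_hasSum hS g1 g2).mul_left (u * u' - v * v')).add
    ((A_hasSum hS g3 g4).mul_left (u * v' - v * u'))
  have hk : ∀ k : ℕ, (u * u' - v * v') * ((2 / (2 * k + 1) * (2 / S) ^ (2 * k + 1)) *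
      (((x * a) ^ 2 - (y * b) ^ 2) * (((x * a + y * b) ^ 2) ^ k + ((x * a - y * b) ^ 2) ^ k))) +
      (u * v' - v * u') * ((2 / (2 * k + 1) * (2 / S) ^ (2 * k + 1)) *
      (((x * b) ^ 2 - (y * a) ^ 2) * (((x * b + y * a) ^ 2) ^ k + ((x * b - y * a) ^ 2) ^ k))) =
      (2 / (2 * k + 1) * (2 / S) ^ (2 * k + 1)) *
      ((1 / 4) * (ρ * (x ^ 2 - y ^ 2) ^ 2 * ((u' + v') * (a ^ 2 + b ^ 2)) +
        ρ' * (a ^ 2 - b ^ 2) ^ 2 * ((u + v) * (x ^ 2 + y ^ 2))) *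
          ((((x * a + y * b) ^ 2) ^ k + ((x * a - y * b) ^ 2) ^ k) +
            (((x * b + y * a) ^ 2) ^ k + ((x * b - y * a) ^ 2) ^ k)) +
      (1 / 4) * (ρ * ((u' + v') * (x ^ 2 + y ^ 2)) + ρ' * ((u + v) * (a ^ 2 + b ^ 2))) *
        (((x ^ 2 - y ^ 2) * (a ^ 2 - b ^ 2)) *
          ((((x * a + y * b) ^ 2) ^ k + ((x * a - y * b) ^ 2) ^ k) -
            (((x * b + y * a) ^ 2) ^ k + ((x * b - y * a) ^ 2) ^ k)))) := by
    intro k
    rw [← term_eq h1 h2]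
    ring
  have hx2 : 0 < (x ^ 2 - y ^ 2) ^ 2 := by positivity
  have ha2 : 0 < (a ^ 2 - b ^ 2) ^ 2 := by positivity
  have hab : 0 < a ^ 2 + b ^ 2 := by
    by_contra hneg
    have hb0 : a ^ 2 + b ^ 2 = 0 := le_antisymm (not_lt.1 hneg) (by positivity)
    have h3 : a ^ 2 = 0 := by nlinarith [sq_nonneg a, sq_nonneg b]
    have h4 : b ^ 2 = 0 := by nlinarith [sq_nonneg a, sq_nonneg b]
    exact ha (by rw [h3, h4, sub_self])
  have hnn : ∀ k : ℕ, 0 ≤ (u * u' - v * v') * ((2 / (2 * k + 1) * (2 / S) ^ (2 * k + 1)) *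
      (((x * a) ^ 2 - (y * b) ^ 2) * (((x * a + y * b) ^ 2) ^ k + ((x * a - y * b) ^ 2) ^ k))) +
      (u * v' - v * u') * ((2 / (2 * k + 1) * (2 / S) ^ (2 * k + 1)) *
      (((x * b) ^ 2 - (y * a) ^ 2) * (((x * b + y * a) ^ 2) ^ k + ((x * b - y * a) ^ 2) ^ k))) := by
    intro k
    rw [hk k]
    apply mul_nonneg (by positivity)
    apply add_nonneg (by positivity)
    exact mul_nonneg (by positivity) (term_sgn x y a b k)
  have h0 := le_hasSum hs 0 (fun j _ => hnn j)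
  refine lt_of_lt_of_le ?_ h0
  rw [hk 0]
  simp only [pow_zero]
  have hpos : 0 < ρ * (x ^ 2 - y ^ 2) ^ 2 * ((u' + v') * (a ^ 2 + b ^ 2)) +
        ρ' * (a ^ 2 - b ^ 2) ^ 2 * ((u + v) * (x ^ 2 + y ^ 2)) :=
    add_pos_of_pos_of_nonneg (by positivity) (by positivity)
  have h3 : (1 / 4 * (ρ * (x ^ 2 - y ^ 2) ^ 2 * ((u' + v') * (a ^ 2 + b ^ 2)) +
        ρ' * (a ^ 2 - b ^ 2) ^ 2 * ((u + v) * (x ^ 2 + y ^ 2))) * ((1 : ℝ) + 1 + (1 + 1)) +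
      1 / 4 * (ρ * ((u' + v') * (x ^ 2 + y ^ 2)) + ρ' * ((u + v) * (a ^ 2 + b ^ 2))) *
        (((x ^ 2 - y ^ 2) * (a ^ 2 - b ^ 2)) * ((1 : ℝ) + 1 - (1 + 1)))) =
      ρ * (x ^ 2 - y ^ 2) ^ 2 * ((u' + v') * (a ^ 2 + b ^ 2)) +
        ρ' * (a ^ 2 - b ^ 2) ^ 2 * ((u + v) * (x ^ 2 + y ^ 2)) := by ring
  rw [h3]
  positivity

end Pool.Agent.H585.KP.Sgx
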